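import Mathlib

set_option autoImplicit false

open Set Metric Filter Topology MeasureTheory Laplacian InnerProductSpace
open scoped ContDiff

namespace Pool.Agent.V1171.WE

/-- `u` is a subharmonic (= plurisubharmonic in one variable) function on the open set `Ω ⊆ ℂ`,
with values in `[-∞, ∞)`: it is upper semicontinuous, and whenever `h` is continuous on a compact
`A ⊆ Ω` and harmonic in the interior of `A` and `u ≤ h` on the boundary of `A`, then `u ≤ h` on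
`A`. -/
def IsPsh (u : ℂ → EReal) (Ω : Set ℂ) : Prop :=
  (∀ z ∈ Ω, u z < ⊤) ∧ UpperSemicontinuousOn u Ω ∧
  ∀ (A : Set ℂ) (h : ℂ → ℝ), IsCompact A → A ⊆ Ω → ContinuousOn h A →
    HarmonicOnNhd h (interior A) → (∀ z ∈ frontier A, u z ≤ (h z : EReal)) →
      ∀ z ∈ A, u z ≤ (h z : EReal)

/-- The Lelong class. -/
def Lelong (u : ℂ → EReal) : Prop :=
  IsPsh u univ ∧ ∃ C : ℝ, ∀ z, u z ≤ ((Real.posLog ‖z‖ + C : ℝ) : EReal)

/-- The weighted global extremal function `V_{K,Q}`. -/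
noncomputable def VV (K : Set ℂ) (Q : ℂ → ℝ) (z : ℂ) : EReal :=
  sSup {y | ∃ u : ℂ → EReal, Lelong u ∧ (∀ w ∈ K, u w ≤ (Q w : EReal)) ∧ y = u z}

/-- The weighted relative extremal function `U_{K,Q,Ω}` (considered on `Ω`). -/
noncomputable def UU (K : Set ℂ) (Q : ℂ → ℝ) (Ω : Set ℂ) (z : ℂ) : EReal :=
  sSup {y | ∃ u : ℂ → EReal, IsPsh u Ω ∧ (∀ w ∈ Ω, u w < 0) ∧ (∀ w ∈ K, u w ≤ (Q w : EReal)) ∧
    y = u z}

/-- The upper semicontinuous regularisation. -/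
noncomputable def reg (v : ℂ → EReal) (z : ℂ) : EReal := limsup v (𝓝 z)

/-- `μ` is the measure `dd^c u = 2 i ∂ ∂̄ u = Δ u` of the (locally bounded) subharmonic function `u`
on `Ω`: for all test functions `φ` on `Ω`, `∫ φ dμ = ∫ u Δ φ`. -/
def IsMA (Ω : Set ℂ) (u : ℂ → EReal) (μ : Measure ℂ) : Prop :=
  ∀ φ : ℂ → ℝ, ContDiff ℝ ∞ φ → HasCompactSupport φ → tsupport φ ⊆ Ω →
    ∫ z, φ z ∂μ = ∫ z in Ω, (u z).toReal * Δ φ z

/-- `Ω` is a bounded hyperconvex domain: a bounded domain with a negative continuous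
(pluri)subharmonic exhaustion function. -/
def IsHyperconvex (Ω : Set ℂ) : Prop :=
  IsOpen Ω ∧ IsConnected Ω ∧ Bornology.IsBounded Ω ∧
    ∃ ρ : ℂ → ℝ, ContinuousOn ρ Ω ∧ IsPsh (fun z => (ρ z : EReal)) Ω ∧ (∀ z ∈ Ω, ρ z < 0) ∧
      ∀ c < 0, IsCompact {z | z ∈ Ω ∧ ρ z ≤ c}

/-- `E` is (pluri)polar: contained in the `-∞` set of a subharmonic function on `ℂ` which is not
identically `-∞`. -/
def IsPolar (E : Set ℂ) : Prop :=
  ∃ u : ℂ → EReal, IsPsh u univ ∧ (∃ z, u z ≠ ⊥) ∧ ∀ z ∈ E, u z = ⊥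

end Pool.Agent.V1171.WE
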