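import Pool.Agent.H366R3.ED.Polar
import Pool.Agent.W347.PS.Poti
import Pool.Agent.Y80.EL.Log

/-!
The Riesz masses of two radial functions.
-/

set_option autoImplicit false

open Set Metric Filter Topology MeasureTheory Laplacian InnerProductSpace
open scoped Real

namespace Pool.Agent.V1171.WE

open Pool.Agent.Y80.EL

theorem max_log_eq {s : ℝ} (hs : 0 < s) (z : ℂ) :
    Real.circleAverage (fun w => Real.log ‖w - z‖) 0 s = Real.log (max ‖z‖ s) := by
  have h := circleAverage_log_norm_sub_const_eq_log_radius_add_posLog (c := 0) (R := s) (a := z)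
    hs.ne'
  rw [h, zero_sub, norm_neg, Real.posLog]
  rcases le_or_gt ‖z‖ s with h1 | h1
  · rw [max_eq_right h1, max_eq_left, add_zero]
    rcases eq_or_lt_of_le (norm_nonneg z) with h2 | h2
    · rw [← h2]; simp
    · apply Real.log_nonpos (by positivity)
      rw [inv_mul_le_iff₀ hs, mul_one]
      exact h1
  · rw [max_eq_left h1.le, max_eq_right, Real.log_mul (by positivity) (by linarith), Real.log_inv]
    · ring
    · apply Real.log_nonneg
      rw [le_inv_mul_iff₀ hs, mul_one]
      exact h1.le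

section

variable {φ : ℂ → ℝ} (hφ : ContDiff ℝ 2 φ) (hc : HasCompactSupport φ)

include hφ hc

theorem integral_log_max {s : ℝ} (hs : 0 < s) :
    ∫ z, Real.log (max ‖z‖ s) * Δ φ z = 2 * π * Real.circleAverage φ 0 s := by
  have hρ : Continuous (Δ φ) := continuous_laplacian hφ
  have hρc : HasCompactSupport (Δ φ) := hasCompactSupport_laplacian hφ hc
  obtain ⟨h1, h2⟩ := Pool.Agent.W347.PS.conv_ex Pool.Agent.W347.PS.locInt_log hρ hρc
  have hk : LocallyIntegrable (fun z : ℂ => |Real.log ‖z‖|) := by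
    intro x
    obtain ⟨s, hs, h⟩ := Pool.Agent.W347.PS.locInt_log x
    exact ⟨s, hs, h.norm⟩
  have h3 := (Pool.Agent.W347.PS.conv_ex (k := fun z : ℂ => |Real.log ‖z‖|) hk
    (ρ := fun y => |Δ φ y|) hρ.abs (hρc.comp_left (g := fun y : ℝ => |y|) abs_zero)).2
  have hcm : Continuous (fun θ : ℝ => circleMap 0 s θ) := continuous_circleMap 0 s
  have hint : Integrable (Function.uncurry fun (θ : ℝ) (y : ℂ) =>
      Real.log ‖circleMap 0 s θ - y‖ * Δ φ y)
      ((volume.restrict (Ioc 0 (2 * π))).prod volume) := by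
    have hm : Measurable (Function.uncurry fun (θ : ℝ) (y : ℂ) =>
        Real.log ‖circleMap 0 s θ - y‖ * Δ φ y) := by
      have h4 : Continuous (fun p : ℝ × ℂ => ‖circleMap 0 s p.1 - p.2‖) := by
        have := hcm.comp (continuous_fst (X := ℝ) (Y := ℂ))
        exact (this.sub continuous_snd).norm
      exact (Real.measurable_log.comp h4.measurable).mul (hρ.measurable.comp measurable_snd)
    rw [integrable_prod_iff hm.aestronglyMeasurable]
    constructor
    · exact Eventually.of_forall fun θ => h1 (circleMap 0 s θ)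
    · have h5 : (fun θ : ℝ => ∫ y, ‖Function.uncurry (fun (θ : ℝ) (y : ℂ) =>
          Real.log ‖circleMap 0 s θ - y‖ * Δ φ y) (θ, y)‖) =
          fun θ : ℝ => ∫ y, |Real.log ‖circleMap 0 s θ - y‖| * |Δ φ y| := by
        funext θ
        refine integral_congr_ae (Eventually.of_forall fun y => ?_)
        simp only [Function.uncurry, Real.norm_eq_abs, abs_mul]
      rw [h5]
      exact ((h3.comp hcm).continuousOn.integrableOn_compact (isCompact_Icc (a := 0)
        (b := 2 * π))).mono_set Ioc_subset_Icc_self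
  have hswap := integral_integral_swap hint
  have hL : ∀ θ : ℝ, ∫ y, Real.log ‖circleMap 0 s θ - y‖ * Δ φ y = 2 * π * φ (circleMap 0 s θ) := by
    intro θ
    rw [← log_translate (circleMap 0 s θ) hφ hc]
    congr 1
    funext y
    rw [norm_sub_rev]
  have hR : ∀ y : ℂ, ∫ θ in Ioc 0 (2 * π), Real.log ‖circleMap 0 s θ - y‖ * Δ φ y =
      2 * π * (Real.log (max ‖y‖ s) * Δ φ y) := by
    intro y
    rw [integral_mul_const, ← max_log_eq hs y, Real.circleAverage,
      intervalIntegral.integral_of_le (by positivity), smul_eq_mul]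
    have := Real.pi_pos
    field_simp
  simp only [hL, hR] at hswap
  rw [integral_const_mul, integral_const_mul] at hswap
  have h2π : (2 * π) ≠ 0 := by positivity
  have h6 := mul_left_cancel₀ h2π hswap
  rw [← h6, Real.circleAverage, intervalIntegral.integral_of_le (by positivity), smul_eq_mul]
  field_simp

end

/-- The potential of the disc. -/
noncomputable def PP (z : ℂ) : ℝ := (min ‖z‖ 1) ^ 2 / 4 - 1 / 4 + 1 / 2 * Real.log (max ‖z‖ 1)

theorem int_log_small {ρ : ℝ} (h0 : 0 < ρ) (h1 : ρ ≤ 1) :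
    ∫ s in Ioo (0 : ℝ) 1, s * Real.log (max ρ s) = ρ ^ 2 / 4 - 1 / 4 := by
  rw [← integral_Ioc_eq_integral_Ioo, ← intervalIntegral.integral_of_le zero_le_one]
  have hci : ∀ a b : ℝ, IntervalIntegrable (fun s => s * Real.log (max ρ s)) volume a b := by
    intro a b
    apply Continuous.intervalIntegrable
    apply continuous_id.mul
    apply Continuous.log (by fun_prop)
    intro s
    have : 0 < max ρ s := lt_of_lt_of_le h0 (le_max_left _ _)
    exact this.ne'
  rw [← intervalIntegral.integral_add_adjacent_intervals (hci 0 ρ) (hci ρ 1)]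
  have e1 : ∫ s in (0 : ℝ)..ρ, s * Real.log (max ρ s) = ρ ^ 2 / 2 * Real.log ρ := by
    have : ∫ s in (0 : ℝ)..ρ, s * Real.log (max ρ s) = ∫ s in (0 : ℝ)..ρ, s * Real.log ρ := by
      apply intervalIntegral.integral_congr
      intro s hs
      rw [uIcc_of_le h0.le] at hs
      simp only [max_eq_left hs.2]
    rw [this, intervalIntegral.integral_mul_const, integral_id]
    ring
  have e2 : ∫ s in ρ..(1 : ℝ), s * Real.log (max ρ s) =
      -1 / 4 - (ρ ^ 2 / 2 * Real.log ρ - ρ ^ 2 / 4) := by
    have : ∫ s in ρ..(1 : ℝ), s * Real.log (max ρ s) = ∫ s in ρ..(1 : ℝ), s * Real.log s := by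
      apply intervalIntegral.integral_congr
      intro s hs
      rw [uIcc_of_le h1] at hs
      simp only [max_eq_right hs.1]
    rw [this, intervalIntegral.integral_eq_sub_of_hasDerivAt
      (f := fun s => s ^ 2 / 2 * Real.log s - s ^ 2 / 4)]
    · simp only [one_pow, Real.log_one, mul_zero, zero_sub]
      norm_num
    · intro s hs
      rw [uIcc_of_le h1] at hs
      have hs0 : s ≠ 0 := (h0.trans_le hs.1).ne'
      have d1 : HasDerivAt (fun s : ℝ => s ^ 2 / 2) s s := by
        have := (hasDerivAt_pow 2 s).div_const 2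
        simpa using this
      have d2 : HasDerivAt (fun s : ℝ => s ^ 2 / 4) (s / 2) s := by
        have := (hasDerivAt_pow 2 s).div_const 4
        refine this.congr_deriv ?_
        push_cast
        ring
      have d3 : HasDerivAt (fun s => s ^ 2 / 2 * Real.log s - s ^ 2 / 4) _ s :=
        (d1.mul (Real.hasDerivAt_log hs0)).sub d2
      refine d3.congr_deriv ?_
      field_simp
      ring
    · apply ContinuousOn.intervalIntegrable
      exact Real.continuous_mul_log.continuousOn
  rw [e1, e2]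
  ring

theorem int_log_large {ρ : ℝ} (h1 : 1 ≤ ρ) :
    ∫ s in Ioo (0 : ℝ) 1, s * Real.log (max ρ s) = 1 / 2 * Real.log ρ := by
  rw [← integral_Ioc_eq_integral_Ioo, ← intervalIntegral.integral_of_le zero_le_one]
  have : ∫ s in (0 : ℝ)..1, s * Real.log (max ρ s) = ∫ s in (0 : ℝ)..1, s * Real.log ρ := by
    apply intervalIntegral.integral_congr
    intro s hs
    rw [uIcc_of_le zero_le_one] at hs
    simp only [max_eq_left (hs.2.trans h1)]
  rw [this, intervalIntegral.integral_mul_const, integral_id]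
  ring

theorem int_log_eq {z : ℂ} (hz : z ≠ 0) :
    ∫ s in Ioo (0 : ℝ) 1, s * Real.log (max ‖z‖ s) = PP z := by
  unfold PP
  rcases le_or_gt ‖z‖ 1 with h | h
  · rw [int_log_small (norm_pos_iff.mpr hz) h, min_eq_left h, max_eq_right h]
    simp
  · rw [int_log_large h.le, min_eq_right h.le, max_eq_left h.le]
    ring

theorem ball_eq_ann : (ball (0 : ℂ) 1) =ᵐ[volume] (Pool.Agent.H366R3.ED.ann 0 1) := by
  have h : ball (0 : ℂ) 1 = Pool.Agent.H366R3.ED.ann 0 1 ∪ {0} := by
    ext z
    simp only [mem_ball_zero_iff, Pool.Agent.H366R3.ED.ann, mem_union, mem_ofPred_eq,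
      mem_singleton_iff]
    constructor
    · intro h
      by_cases hz : z = 0
      · exact Or.inr hz
      · exact Or.inl ⟨norm_pos_iff.mpr hz, h⟩
    · rintro (h | h)
      · exact h.2
      · rw [h]; simp
  rw [h]
  exact union_ae_eq_left_of_ae_eq_empty (ae_eq_empty.mpr (by simp))

theorem integral_PP {φ : ℂ → ℝ} (hφ : ContDiff ℝ 2 φ) (hc : HasCompactSupport φ) :
    ∫ z, PP z * Δ φ z = ∫ z in ball (0 : ℂ) 1, φ z := by
  have hρ : Continuous (Δ φ) := continuous_laplacian hφ
  have hρc : HasCompactSupport (Δ φ) := hasCompactSupport_laplacian hφ hc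
  have e1 : ∫ z, PP z * Δ φ z =
      ∫ z, ∫ s in Ioo (0 : ℝ) 1, s * Real.log (max ‖z‖ s) * Δ φ z := by
    apply integral_congr_ae
    filter_upwards [Measure.ae_ne volume (0 : ℂ)] with z hz
    rw [integral_mul_const, int_log_eq hz]
  obtain ⟨R, hR1, hR⟩ : ∃ R : ℝ, 1 ≤ R ∧ tsupport (Δ φ) ⊆ closedBall 0 R := by
    obtain ⟨R, hR⟩ := hρc.isBounded.subset_closedBall 0
    exact ⟨max R 1, le_max_right _ _, hR.trans (closedBall_subset_closedBall (le_max_left _ _))⟩
  have hint : Integrable (Function.uncurry fun (z : ℂ) (s : ℝ) =>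
      s * Real.log (max ‖z‖ s) * Δ φ z)
      (volume.prod (volume.restrict (Ioo (0 : ℝ) 1))) := by
    have hm : Measurable (Function.uncurry fun (z : ℂ) (s : ℝ) =>
        s * Real.log (max ‖z‖ s) * Δ φ z) := by
      have h4 : Continuous (fun p : ℂ × ℝ => max ‖p.1‖ p.2) := by fun_prop
      exact (measurable_snd.mul (Real.measurable_log.comp h4.measurable)).mul
        (hρ.measurable.comp measurable_fst)
    have hg : Integrable (fun p : ℂ × ℝ => |Δ φ p.1| * (1 + Real.log R))
        (volume.prod (volume.restrict (Ioo (0 : ℝ) 1))) := by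
      have h1 : Integrable (fun z => |Δ φ z|) := (hρ.integrable_of_hasCompactSupport hρc).abs
      have h2 : Integrable (fun _ : ℝ => (1 + Real.log R)) (volume.restrict (Ioo (0 : ℝ) 1)) :=
        integrable_const _
      exact h1.mul_prod h2
    refine hg.mono' hm.aestronglyMeasurable ?_
    have hae : ∀ᵐ p : ℂ × ℝ ∂(volume.prod (volume.restrict (Ioo (0 : ℝ) 1))),
        p.2 ∈ Ioo (0 : ℝ) 1 := by
      have h5 : ∀ᵐ s ∂(volume.restrict (Ioo (0 : ℝ) 1)), s ∈ Ioo (0 : ℝ) 1 :=
        ae_restrict_mem measurableSet_Ioo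
      exact Measure.quasiMeasurePreserving_snd.ae h5
    filter_upwards [hae] with p hp
    simp only [Function.uncurry]
    rw [Real.norm_eq_abs, abs_mul, mul_comm]
    by_cases hz : p.1 ∈ tsupport (Δ φ)
    · gcongr
      have hz' : ‖p.1‖ ≤ R := by simpa using hR hz
      have hm0 : 0 < max ‖p.1‖ p.2 := lt_of_lt_of_le hp.1 (le_max_right _ _)
      have hmR : max ‖p.1‖ p.2 ≤ R := max_le hz' (hp.2.le.trans hR1)
      have hlR : 0 ≤ Real.log R := Real.log_nonneg hR1
      rw [abs_mul, abs_of_pos hp.1]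
      rcases le_or_gt 1 (max ‖p.1‖ p.2) with h6 | h6
      · rw [abs_of_nonneg (Real.log_nonneg h6)]
        have h7 := Real.log_le_log hm0 hmR
        have h8 := Real.log_nonneg h6
        nlinarith [hp.1, hp.2]
      · rw [abs_of_nonpos (Real.log_nonpos hm0.le h6.le)]
        have h7 : Real.log p.2 ≤ Real.log (max ‖p.1‖ p.2) :=
          Real.log_le_log hp.1 (le_max_right _ _)
        have h8 : -(p.2 * Real.log p.2) ≤ 1 := by
          have h9 := Real.add_one_le_exp (-Real.log p.2 - 1)
          have h10 : Real.exp (-Real.log p.2 - 1) = p.2⁻¹ * Real.exp (-1) := by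
            rw [sub_eq_add_neg, Real.exp_add, Real.exp_neg, Real.exp_log hp.1]
          rw [h10] at h9
          have h11 : Real.exp (-1) ≤ 1 := Real.exp_le_one_iff.mpr (by norm_num)
          have h12 : p.2 * (-Real.log p.2 - 1 + 1) ≤ p.2 * (p.2⁻¹ * Real.exp (-1)) :=
            mul_le_mul_of_nonneg_left h9 hp.1.le
          rw [← mul_assoc, mul_inv_cancel₀ hp.1.ne', one_mul] at h12
          linarith
        have h13 : p.2 * Real.log p.2 ≤ p.2 * Real.log (max ‖p.1‖ p.2) :=
          mul_le_mul_of_nonneg_left h7 hp.1.le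
        linarith
    · rw [image_eq_zero_of_notMem_tsupport hz]
      simp
  rw [e1, integral_integral_swap hint]
  have e2 : ∀ s ∈ Ioo (0 : ℝ) 1, ∫ z, s * Real.log (max ‖z‖ s) * Δ φ z =
      (2 * π * s) • Real.circleAverage φ 0 s := by
    intro s hs
    have h1 := integral_log_max hφ hc hs.1
    simp_rw [mul_assoc]
    rw [integral_const_mul, h1, smul_eq_mul]
    ring
  rw [setIntegral_congr_fun measurableSet_Ioo e2, setIntegral_congr_set ball_eq_ann]
  rw [Pool.Agent.H366R3.ED.polar_avg le_rfl hφ.continuous.continuousOn]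
  exact (hφ.continuous.integrable_of_hasCompactSupport hc).integrableOn

theorem integral_laplacian {φ : ℂ → ℝ} (hφ : ContDiff ℝ 2 φ) (hc : HasCompactSupport φ) :
    ∫ z, Δ φ z = 0 := by
  have h := Pool.Agent.H314.CS.LL.green (v := fun _ : ℂ => (1 : ℝ)) contDiff_const hφ hc
  have h2 : ∀ x : ℂ, Δ (fun _ : ℂ => (1 : ℝ)) x = 0 := by
    intro x
    have := (InnerProductSpace.harmonicAt_const (c := (1 : ℝ)) (x := x))
    exact this.2.self_of_nhds
  simp only [one_mul, h2, zero_mul, integral_zero] at h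
  exact h

/-- The radial functions `V` (`c = 1`) and `U` (`c = 1/2`). -/
noncomputable def ww (c : ℝ) (z : ℂ) : ℝ :=
  (min ‖z‖ 1) ^ 2 / 4 - 3 / 4 + c * Real.log (max ‖z‖ 1)

theorem continuous_ww (c : ℝ) : Continuous (ww c) := by
  unfold ww
  apply Continuous.add (by fun_prop)
  apply continuous_const.mul
  apply Continuous.log (by fun_prop)
  intro z
  have : 0 < max ‖z‖ 1 := lt_of_lt_of_le one_pos (le_max_right _ _)
  exact this.ne'

theorem integral_ww (c : ℝ) {φ : ℂ → ℝ} (hφ : ContDiff ℝ 2 φ) (hc : HasCompactSupport φ) :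
    ∫ z, ww c z * Δ φ z = (∫ z in ball (0 : ℂ) 1, φ z) +
      (c - 1 / 2) * (2 * π * Real.circleAverage φ 0 1) := by
  have hρ : Continuous (Δ φ) := continuous_laplacian hφ
  have hρc : HasCompactSupport (Δ φ) := hasCompactSupport_laplacian hφ hc
  have hlc : Continuous (fun z : ℂ => Real.log (max ‖z‖ 1)) := by
    apply Continuous.log (by fun_prop)
    intro z
    have : 0 < max ‖z‖ 1 := lt_of_lt_of_le one_pos (le_max_right _ _)
    exact this.ne'
  have hPc : Continuous PP := by
    unfold PP
    exact Continuous.add (by fun_prop) (continuous_const.mul hlc)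
  have e : ∀ z, ww c z * Δ φ z = PP z * Δ φ z - 1 / 2 * Δ φ z +
      (c - 1 / 2) * (Real.log (max ‖z‖ 1) * Δ φ z) := by
    intro z
    unfold ww PP
    ring
  simp only [e]
  have i1 : Integrable (fun z => PP z * Δ φ z) :=
    (hPc.mul hρ).integrable_of_hasCompactSupport hρc.mul_left
  have i2 : Integrable (fun z => 1 / 2 * Δ φ z) :=
    (hρ.integrable_of_hasCompactSupport hρc).const_mul _
  have i3 : Integrable (fun z => (c - 1 / 2) * (Real.log (max ‖z‖ 1) * Δ φ z)) :=
    ((hlc.mul hρ).integrable_of_hasCompactSupport hρc.mul_left).const_mul _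
  have i12 : Integrable (fun z => PP z * Δ φ z - 1 / 2 * Δ φ z) := i1.sub i2
  rw [integral_add i12 i3, integral_sub i1 i2, integral_const_mul, integral_const_mul,
    integral_PP hφ hc, integral_laplacian hφ hc, integral_log_max hφ hc one_pos]
  ring

end Pool.Agent.V1171.WE
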