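import Pool.Agent.V1171.WE.Psh

/-!
The extremal measures and their supports.
-/

set_option autoImplicit false

open Set Metric Filter Topology MeasureTheory Laplacian InnerProductSpace
open scoped ContDiff Real ENNReal

namespace Pool.Agent.V1171.WE

/-- The arc length measure on the unit circle. -/
noncomputable def arc : Measure ℂ := (volume.restrict (Ioc 0 (2 * π))).map (circleMap 0 1)

theorem measurable_cm : Measurable (circleMap 0 1) := (continuous_circleMap 0 1).measurable

instance : IsFiniteMeasure arc := by
  unfold arc
  infer_instance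

theorem arc_sphere : arc (sphere (0 : ℂ) 1) = ENNReal.ofReal (2 * π) := by
  unfold arc
  rw [Measure.map_apply measurable_cm isClosed_sphere.measurableSet]
  have : circleMap 0 1 ⁻¹' sphere (0 : ℂ) 1 = univ := by
    ext θ
    simp
  rw [this, Measure.restrict_apply_univ, Real.volume_Ioc, sub_zero]

theorem arc_compl : arc (closedBall (0 : ℂ) 1)ᶜ = 0 := by
  unfold arc
  rw [Measure.map_apply measurable_cm isClosed_closedBall.measurableSet.compl]
  have : circleMap 0 1 ⁻¹' (closedBall (0 : ℂ) 1)ᶜ = ∅ := by
    ext θ
    simp
  rw [this, measure_empty]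

theorem integral_arc {φ : ℂ → ℝ} (hφ : Continuous φ) :
    ∫ z, φ z ∂arc = 2 * π * Real.circleAverage φ 0 1 := by
  unfold arc
  rw [integral_map measurable_cm.aemeasurable hφ.aestronglyMeasurable, Real.circleAverage,
    intervalIntegral.integral_of_le (by positivity), smul_eq_mul]
  have := Real.pi_pos
  field_simp

/-- Area measure on the unit disc. -/
noncomputable def nu : Measure ℂ := volume.restrict (ball 0 1)

/-- Area measure on the unit disc plus half of arc length on the circle. -/
noncomputable def mu : Measure ℂ := nu + ENNReal.ofReal (1 / 2) • arc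

instance : IsFiniteMeasure nu := by
  unfold nu
  exact ⟨by rw [Measure.restrict_apply_univ]; exact measure_ball_lt_top⟩

instance : IsFiniteMeasure mu := by
  unfold mu
  have : IsFiniteMeasure (ENNReal.ofReal (1 / 2) • arc) :=
    Measure.smul_finite _ ENNReal.ofReal_ne_top
  infer_instance

theorem isMA_nu : IsMA (ball (0 : ℂ) (Real.exp 1))
    (reg (UU (closedBall (0 : ℂ) 1) QQ (ball 0 (Real.exp 1)))) nu := by
  intro φ hφ hc hsupp
  have hφ2 : ContDiff ℝ 2 φ := Pool.Agent.Y80.EL.cd2 hφ
  have h1 := integral_ww (1 / 2) hφ2 hc
  rw [sub_self, zero_mul, add_zero] at h1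
  have h2 : ∫ z in ball (0 : ℂ) (Real.exp 1),
      (reg (UU (closedBall (0 : ℂ) 1) QQ (ball 0 (Real.exp 1))) z).toReal * Δ φ z =
      ∫ z in ball (0 : ℂ) (Real.exp 1), ww (1 / 2) z * Δ φ z := by
    apply setIntegral_congr_fun isOpen_ball.measurableSet
    intro z hz
    simp only [reg_UU hz, EReal.toReal_coe]
  rw [h2, setIntegral_eq_integral_of_forall_compl_eq_zero, h1]
  · rfl
  · intro z hz
    have h3 : z ∉ tsupport (Δ φ) := fun h => hz (hsupp (by
      have h4 : tsupport (Δ φ) ⊆ tsupport φ := by
        apply closure_minimal _ (isClosed_tsupport φ)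
        intro w hw
        by_contra hcon
        apply hw
        have h5 : φ =ᶠ[𝓝 w] fun _ => 0 := notMem_tsupport_iff_eventuallyEq.mp hcon
        have h6 := (laplacian_congr_nhds h5).self_of_nhds
        rw [h6]
        exact (harmonicAt_const (c := (0 : ℝ)) (x := w)).2.self_of_nhds
      exact h4 h))
    rw [image_eq_zero_of_notMem_tsupport h3, mul_zero]

theorem isMA_mu : IsMA univ (reg (VV (closedBall (0 : ℂ) 1) QQ)) mu := by
  intro φ hφ hc _
  have hφ2 : ContDiff ℝ 2 φ := Pool.Agent.Y80.EL.cd2 hφ
  have h1 := integral_ww 1 hφ2 hc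
  simp only [reg_VV, EReal.toReal_coe, Measure.restrict_univ]
  rw [h1]
  have hcont := hφ2.continuous
  have i1 : Integrable φ nu :=
    (hcont.integrable_of_hasCompactSupport hc).mono_measure Measure.restrict_le_self
  have i2 : Integrable φ (ENNReal.ofReal (1 / 2) • arc) := by
    apply Integrable.smul_measure _ ENNReal.ofReal_ne_top
    exact hcont.integrable_of_hasCompactSupport hc
  unfold mu
  rw [integral_add_measure i1 i2, integral_smul_measure, integral_arc hcont,
    ENNReal.toReal_ofReal (by norm_num), smul_eq_mul]
  unfold nu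
  ring

theorem support_nu : nu.support = closedBall (0 : ℂ) 1 := by
  apply Subset.antisymm
  · apply Measure.support_subset_of_isClosed isClosed_closedBall
    rw [mem_ae_iff]
    unfold nu
    rw [Measure.restrict_apply isClosed_closedBall.measurableSet.compl]
    have : (closedBall (0 : ℂ) 1)ᶜ ∩ ball 0 1 = ∅ := by
      ext z
      simp only [mem_inter_iff, mem_compl_iff, mem_closedBall_zero_iff, mem_ball_zero_iff,
        mem_empty_iff_false, iff_false, not_and, not_lt, not_le]
      exact fun h => h.le
    rw [this, measure_empty]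
  · intro z hz
    rw [Measure.mem_support_iff_forall]
    intro U hU
    obtain ⟨V, hVU, hV, hzV⟩ := _root_.mem_nhds_iff.mp hU
    have h1 : z ∈ closure (ball (0 : ℂ) 1) := by
      rw [closure_ball _ one_ne_zero]
      exact hz
    obtain ⟨w, hw1, hw2⟩ := mem_closure_iff.mp h1 V hV hzV
    have h2 : 0 < nu (V ∩ ball 0 1) := by
      unfold nu
      rw [Measure.restrict_apply (hV.inter isOpen_ball).measurableSet, inter_assoc, inter_self]
      exact (hV.inter isOpen_ball).measure_pos volume ⟨w, hw1, hw2⟩
    exact h2.trans_le (measure_mono (inter_subset_left.trans hVU))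

theorem support_mu : mu.support = closedBall (0 : ℂ) 1 := by
  apply Subset.antisymm
  · apply Measure.support_subset_of_isClosed isClosed_closedBall
    rw [mem_ae_iff]
    unfold mu
    rw [Measure.add_apply, Measure.smul_apply, arc_compl]
    have h := support_nu
    have h2 : nu (closedBall (0 : ℂ) 1)ᶜ = 0 := by
      unfold nu
      rw [Measure.restrict_apply isClosed_closedBall.measurableSet.compl]
      have : (closedBall (0 : ℂ) 1)ᶜ ∩ ball 0 1 = ∅ := by
        ext z
        simp only [mem_inter_iff, mem_compl_iff, mem_closedBall_zero_iff, mem_ball_zero_iff,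
          mem_empty_iff_false, iff_false, not_and, not_lt, not_le]
        exact fun h => h.le
      rw [this, measure_empty]
    rw [h2]
    simp
  · rw [← support_nu]
    apply Measure.support_mono
    exact Measure.le_add_right le_rfl

theorem not_ac : ¬ mu ≪ nu := by
  intro h
  have h1 : nu (sphere (0 : ℂ) 1) = 0 := by
    unfold nu
    rw [Measure.restrict_apply isClosed_sphere.measurableSet]
    have : sphere (0 : ℂ) 1 ∩ ball 0 1 = ∅ := by
      ext z
      simp only [mem_inter_iff, mem_sphere_zero_iff_norm, mem_ball_zero_iff, mem_empty_iff_false,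
        iff_false, not_and, not_lt]
      exact fun h => h.ge
    rw [this, measure_empty]
  have h2 := h h1
  unfold mu at h2
  rw [Measure.add_apply, Measure.smul_apply, arc_sphere, smul_eq_mul] at h2
  have h3 : ENNReal.ofReal (1 / 2) * ENNReal.ofReal (2 * π) = 0 := by
    have := add_eq_zero.mp h2
    exact this.2
  rw [← ENNReal.ofReal_mul (by norm_num), ENNReal.ofReal_eq_zero] at h3
  have := Real.pi_pos
  linarith

end Pool.Agent.V1171.WE
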