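import Pool.Agent.V1171.WE.Defs
import Pool.Agent.V1171.WE.Dist

/-!
Subharmonicity of the radial functions, and the comparison arguments.
-/

set_option autoImplicit false

open Set Metric Filter Topology MeasureTheory Laplacian InnerProductSpace
open scoped ContDiff Real

namespace Pool.Agent.V1171.WE

theorem circleAverage_normSq (a : ℂ) {r : ℝ} (hr : 0 ≤ r) :
    Real.circleAverage (fun z : ℂ => ‖z‖ ^ 2) a r = ‖a‖ ^ 2 + r ^ 2 := by
  set f : ℂ → ℂ := fun z => (‖a‖ ^ 2 + r ^ 2 : ℝ) + 2 * ((starRingEnd ℂ) a * (z - a)) with hf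
  have h1 : Real.circleAverage (fun z : ℂ => ‖z‖ ^ 2) a r =
      Real.circleAverage (fun z : ℂ => (f z).re) a r := by
    apply Real.circleAverage_congr_sphere
    intro z hz
    rw [mem_sphere_iff_norm, abs_of_nonneg hr] at hz
    have e : z = a + (z - a) := by ring
    have h2 : ‖z‖ ^ 2 = ‖a + (z - a)‖ ^ 2 := by rw [← e]
    change ‖z‖ ^ 2 = (f z).re
    rw [h2, ← Complex.normSq_eq_norm_sq, Complex.normSq_add, Complex.normSq_eq_norm_sq,
      Complex.normSq_eq_norm_sq, hz, hf]
    simp only [Complex.add_re, Complex.ofReal_re, Complex.mul_re, Complex.conj_re, Complex.conj_im,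
      Complex.sub_re, Complex.sub_im, Complex.re_ofNat, Complex.im_ofNat]
    ring
  rw [h1]
  have h3 : HarmonicOnNhd (fun z : ℂ => (f z).re) (closedBall a |r|) := by
    intro z _
    have : AnalyticAt ℂ f z := by
      rw [hf]
      fun_prop
    exact this.harmonicAt_re
  rw [h3.circleAverage_eq]
  simp [hf, -Complex.ofReal_pow]

/-- A continuous function with the local sub-mean value property is subharmonic. -/
theorem isPsh_of_submean {v : ℂ → ℝ} {Ω : Set ℂ} (hv : ContinuousOn v Ω)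
    (hm : ∀ z ∈ Ω, ∃ r₀ > 0, ∀ r, 0 < r → r < r₀ → v z ≤ Real.circleAverage v z r) :
    IsPsh (fun z => (v z : EReal)) Ω := by
  refine ⟨fun z _ => EReal.coe_lt_top _, ?_, ?_⟩
  · exact (continuous_coe_real_ereal.comp_continuousOn hv).upperSemicontinuousOn
  intro A h hA hAΩ hh hharm hfr z₁ hz₁
  by_contra hcon
  push Not at hcon
  have hcon' : h z₁ < v z₁ := by exact_mod_cast hcon
  obtain ⟨M, hM0, hM⟩ : ∃ M : ℝ, 0 < M ∧ ∀ z ∈ A, ‖z‖ ^ 2 ≤ M := by
    obtain ⟨M, hM⟩ := hA.isBounded.exists_norm_le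
    refine ⟨M ^ 2 + 1, by positivity, fun z hz => ?_⟩
    have := hM z hz
    nlinarith [norm_nonneg z]
  set δ := v z₁ - h z₁ with hδ
  have hδ0 : 0 < δ := by rw [hδ]; linarith
  set ε := δ / (2 * M) with hε
  have hε0 : 0 < ε := by positivity
  have hεM : ε * M < δ := by
    rw [hε]
    field_simp
    linarith
  set g : ℂ → ℝ := fun z => v z - h z + ε * ‖z‖ ^ 2 with hg
  have hgc : ContinuousOn g A := ((hv.mono hAΩ).sub hh).add (by fun_prop)
  obtain ⟨z₀, hz₀, hmax⟩ := hA.exists_isMaxOn ⟨z₁, hz₁⟩ hgc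
  have hg1 : δ ≤ g z₀ := by
    have := hmax hz₁
    have h2 : g z₁ ≤ g z₀ := this
    have h3 : δ ≤ g z₁ := by
      simp only [hg]
      have : 0 ≤ ε * ‖z₁‖ ^ 2 := by positivity
      linarith
    linarith
  have hint : z₀ ∈ interior A := by
    by_contra hni
    have hfr' : z₀ ∈ frontier A := by
      rw [hA.isClosed.frontier_eq]
      exact ⟨hz₀, hni⟩
    have h4 : v z₀ ≤ h z₀ := EReal.coe_le_coe_iff.mp (hfr z₀ hfr')
    have h5 := mul_le_mul_of_nonneg_left (hM z₀ hz₀) hε0.le
    simp only [hg] at hg1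
    linarith
  obtain ⟨r₀, hr₀, hsub⟩ := hm z₀ (hAΩ hz₀)
  obtain ⟨r₁, hr₁, hball⟩ := Metric.isOpen_iff.mp isOpen_interior z₀ hint
  set r := min r₀ r₁ / 2 with hr
  have hmin : 0 < min r₀ r₁ := lt_min hr₀ hr₁
  have hr0 : 0 < r := by rw [hr]; linarith
  have hr0' : r < r₀ := by
    have := min_le_left r₀ r₁
    rw [hr]; linarith
  have hr1' : r < r₁ := by
    have := min_le_right r₀ r₁
    rw [hr]; linarith
  have hcb : closedBall z₀ r ⊆ interior A := (closedBall_subset_ball hr1').trans hball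
  have hsA : sphere z₀ r ⊆ A := sphere_subset_closedBall.trans (hcb.trans interior_subset)
  have h6 := hsub r hr0 hr0'
  have hhavg : Real.circleAverage h z₀ r = h z₀ := by
    apply InnerProductSpace.HarmonicOnNhd.circleAverage_eq
    rw [abs_of_pos hr0]
    exact hharm.mono hcb
  have hvi : CircleIntegrable v z₀ r :=
    ((hv.mono hAΩ).mono hsA).circleIntegrable hr0.le
  have hhi : CircleIntegrable h z₀ r := (hh.mono hsA).circleIntegrable hr0.le
  have hni : CircleIntegrable (fun z : ℂ => ε • ‖z‖ ^ 2) z₀ r := by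
    apply ContinuousOn.circleIntegrable hr0.le
    fun_prop
  have hmono : Real.circleAverage v z₀ r ≤
      Real.circleAverage ((fun _ => g z₀) + h - fun z : ℂ => ε • ‖z‖ ^ 2) z₀ r := by
    apply Real.circleAverage_mono hvi
    · exact ((circleIntegrable_const _ _ _).add hhi).sub hni
    · intro z hz
      rw [abs_of_pos hr0] at hz
      have h7 : g z ≤ g z₀ := hmax (hsA hz)
      simp only [Pi.add_apply, Pi.sub_apply, smul_eq_mul]
      simp only [hg] at h7 ⊢
      linarith
  rw [Real.circleAverage_sub ((circleIntegrable_const _ _ _).add hhi) hni,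
    Real.circleAverage_add (circleIntegrable_const _ _ _) hhi, Real.circleAverage_const,
    Real.circleAverage_fun_smul, circleAverage_normSq z₀ hr0.le, hhavg, smul_eq_mul] at hmono
  have h8 : 0 < ε * r ^ 2 := by positivity
  simp only [hg] at hmono
  nlinarith

theorem harmonic_log (α β : ℝ) {z : ℂ} (hz : z ≠ 0) :
    HarmonicAt (fun w : ℂ => α * Real.log ‖w‖ + β) z := by
  have h1 : HarmonicAt (fun w : ℂ => Real.log ‖w‖) z :=
    AnalyticAt.harmonicAt_log_norm (f := fun w : ℂ => w) analyticAt_id hz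
  have h2 : HarmonicAt (fun w : ℂ => α * Real.log ‖w‖) z := h1.const_smul (c := α)
  exact h2.add (harmonicAt_const β)

theorem circleAverage_log (α β : ℝ) {a : ℂ} {r : ℝ} (hr : 0 < r) (ha : r < ‖a‖) :
    Real.circleAverage (fun w : ℂ => α * Real.log ‖w‖ + β) a r = α * Real.log ‖a‖ + β := by
  have h : HarmonicOnNhd (fun w : ℂ => α * Real.log ‖w‖ + β) (closedBall a |r|) := by
    intro z hz
    apply harmonic_log
    rintro rfl
    rw [abs_of_pos hr, mem_closedBall, dist_comm, dist_zero_right] at hz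
    linarith
  exact h.circleAverage_eq

theorem ww_ge {c : ℝ} (hc : 1 / 2 ≤ c) {z : ℂ} (hz : z ≠ 0) :
    c * Real.log ‖z‖ + -(1 / 2) ≤ ww c z := by
  unfold ww
  rcases le_or_gt 1 ‖z‖ with h | h
  · rw [min_eq_right h, max_eq_left h]
    linarith
  · rw [min_eq_left h.le, max_eq_right h.le, Real.log_one, mul_zero]
    have h0 : 0 < ‖z‖ := norm_pos_iff.mpr hz
    have h1 : Real.log ‖z‖ < 0 := Real.log_neg h0 h
    have h2 : Real.log (‖z‖ ^ 2) ≤ ‖z‖ ^ 2 - 1 := Real.log_le_sub_one_of_pos (by positivity)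
    rw [Real.log_pow] at h2
    push_cast at h2
    nlinarith

theorem ww_eq_large {c : ℝ} {z : ℂ} (h : 1 ≤ ‖z‖) : ww c z = c * Real.log ‖z‖ + -(1 / 2) := by
  unfold ww
  rw [min_eq_right h, max_eq_left h]
  ring

theorem ww_eq_small {c : ℝ} {z : ℂ} (h : ‖z‖ ≤ 1) : ww c z = ‖z‖ ^ 2 / 4 - 3 / 4 := by
  unfold ww
  rw [min_eq_left h, max_eq_right h, Real.log_one, mul_zero, add_zero]

theorem isPsh_ww {c : ℝ} (hc : 1 / 2 ≤ c) (Ω : Set ℂ) : IsPsh (fun z => (ww c z : EReal)) Ω := by
  apply isPsh_of_submean (continuous_ww c).continuousOn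
  intro z _
  rcases lt_or_ge ‖z‖ 1 with h | h
  · refine ⟨1 - ‖z‖, by linarith, fun r hr hr1 => ?_⟩
    have h1 : Real.circleAverage (ww c) z r =
        Real.circleAverage ((fun w : ℂ => (1 / 4 : ℝ) • ‖w‖ ^ 2) + fun _ => -(3 / 4)) z r := by
      apply Real.circleAverage_congr_sphere
      intro w hw
      rw [mem_sphere_iff_norm, abs_of_pos hr] at hw
      have h2 : ‖w‖ ≤ 1 := by
        have := norm_add_le (w - z) z
        rw [sub_add_cancel] at this
        linarith
      rw [ww_eq_small h2]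
      simp only [Pi.add_apply, smul_eq_mul]
      ring
    rw [h1, Real.circleAverage_add, Real.circleAverage_fun_smul, circleAverage_normSq z hr.le,
      Real.circleAverage_const, ww_eq_small h.le, smul_eq_mul]
    · nlinarith [sq_nonneg r]
    · apply ContinuousOn.circleIntegrable hr.le
      fun_prop
    · exact circleIntegrable_const _ _ _
  · refine ⟨1, one_pos, fun r hr hr1 => ?_⟩
    have hne : ∀ w ∈ sphere z r, w ≠ 0 := by
      rintro w hw rfl
      rw [mem_sphere, dist_comm, dist_zero_right] at hw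
      linarith
    rw [ww_eq_large h, ← circleAverage_log c (-(1 / 2)) hr (by linarith)]
    apply Real.circleAverage_mono
    · apply ContinuousOn.circleIntegrable hr.le
      apply ContinuousOn.add _ continuousOn_const
      apply continuousOn_const.mul
      apply ContinuousOn.log (by fun_prop)
      intro w hw
      exact norm_ne_zero_iff.mpr (hne w hw)
    · exact (continuous_ww c).continuousOn.circleIntegrable hr.le
    · intro w hw
      rw [abs_of_pos hr] at hw
      exact ww_ge hc (hne w hw)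

/-- The closed annulus. -/
def An (R : ℝ) : Set ℂ := {z | 1 ≤ ‖z‖ ∧ ‖z‖ ≤ R}

theorem isCompact_An (R : ℝ) : IsCompact (An R) := by
  apply Metric.isCompact_of_isClosed_isBounded
  · exact (isClosed_le continuous_const continuous_norm).inter
      (isClosed_le continuous_norm continuous_const)
  · apply (isBounded_closedBall (x := (0 : ℂ)) (r := R)).subset
    intro z hz
    rw [mem_closedBall_zero_iff]
    exact hz.2

theorem frontier_An (R : ℝ) : frontier (An R) ⊆ {z | ‖z‖ = 1 ∨ ‖z‖ = R} := by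
  intro z hz
  rw [(isCompact_An R).isClosed.frontier_eq] at hz
  obtain ⟨⟨h1, h2⟩, h3⟩ := hz
  by_contra hcon
  simp only [mem_ofPred_eq, not_or] at hcon
  apply h3
  have ho : IsOpen {w : ℂ | 1 < ‖w‖ ∧ ‖w‖ < R} :=
    (isOpen_lt continuous_const continuous_norm).inter (isOpen_lt continuous_norm continuous_const)
  apply mem_interior.mpr
  exact ⟨_, fun w hw => ⟨hw.1.le, hw.2.le⟩, ho, lt_of_le_of_ne h1 (Ne.symm hcon.1),
    lt_of_le_of_ne h2 hcon.2⟩

/-- Comparison on an annulus. -/
theorem compare {u : ℂ → EReal} {Ω : Set ℂ} (hu : IsPsh u Ω) {R : ℝ} (hR : An R ⊆ Ω) {α β : ℝ}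
    (h1 : ∀ z, ‖z‖ = 1 → u z ≤ ((β : ℝ) : EReal))
    (h2 : ∀ z, ‖z‖ = R → u z ≤ ((α * Real.log R + β : ℝ) : EReal)) {z : ℂ} (hz : z ∈ An R) :
    u z ≤ ((α * Real.log ‖z‖ + β : ℝ) : EReal) := by
  have hne : ∀ w ∈ An R, w ≠ 0 := by
    rintro w hw rfl
    have := hw.1
    rw [norm_zero] at this
    linarith
  refine hu.2.2 (An R) (fun w => α * Real.log ‖w‖ + β) (isCompact_An R) hR ?_ ?_ ?_ z hz
  · apply ContinuousOn.add _ continuousOn_const
    apply continuousOn_const.mul
    apply ContinuousOn.log (by fun_prop)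
    intro w hw
    exact norm_ne_zero_iff.mpr (hne w hw)
  · intro w hw
    exact harmonic_log α β (hne w (interior_subset hw))
  · intro w hw
    rcases frontier_An R hw with h | h
    · simp only [h, Real.log_one, mul_zero, zero_add]
      exact h1 w h
    · simp only [h]
      exact h2 w h

/-- The weight. -/
noncomputable def QQ (z : ℂ) : ℝ := ‖z‖ ^ 2 / 4 - 3 / 4

theorem VV_le {u : ℂ → EReal} (hu : Lelong u)
    (hK : ∀ w ∈ closedBall (0 : ℂ) 1, u w ≤ (QQ w : EReal)) (z : ℂ) :
    u z ≤ (ww 1 z : EReal) := by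
  rcases le_or_gt ‖z‖ 1 with h | h
  · rw [ww_eq_small h]
    exact hK z (by simpa using h)
  · obtain ⟨hpsh, C, hC⟩ := hu
    rw [ww_eq_large h.le]
    have hlz : 0 < Real.log ‖z‖ := Real.log_pos h
    have key : ∀ η : ℝ, 0 < η → u z ≤ (((1 + η) * Real.log ‖z‖ + -(1 / 2) : ℝ) : EReal) := by
      intro η hη
      set R : ℝ := max ‖z‖ (Real.exp ((|C| + 1) / η)) with hR
      have hR1 : 1 < R := lt_of_lt_of_le h (le_max_left _ _)
      have hlR : (|C| + 1) / η ≤ Real.log R := by
        rw [Real.le_log_iff_exp_le (by linarith)]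
        exact le_max_right _ _
      have hlR' : |C| + 1 ≤ η * Real.log R := by
        rw [div_le_iff₀ hη] at hlR
        linarith
      apply compare hpsh (R := R) (subset_univ _) (α := 1 + η) (β := -(1 / 2))
      · intro w hw
        refine (hK w (by simp [hw])).trans ?_
        unfold QQ
        rw [hw]
        apply EReal.coe_le_coe_iff.mpr
        norm_num
      · intro w hw
        refine (hC w).trans (EReal.coe_le_coe_iff.mpr ?_)
        rw [hw, Real.posLog_eq_log (by rw [abs_of_pos (by linarith)]; exact hR1.le)]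
        have := le_abs_self C
        linarith
      · exact ⟨h.le, le_max_left _ _⟩
    have hne : u z ≠ ⊤ := (hpsh.1 z (mem_univ z)).ne
    rcases eq_or_ne (u z) ⊥ with hb | hb
    · rw [hb]; exact bot_le
    · obtain ⟨x, hx⟩ : ∃ x : ℝ, u z = x := ⟨(u z).toReal, (EReal.coe_toReal hne hb).symm⟩
      rw [hx] at key ⊢
      apply EReal.coe_le_coe_iff.mpr
      apply le_of_forall_pos_le_add
      intro ε hε
      have := key (ε / Real.log ‖z‖) (by positivity)
      have h2 := EReal.coe_le_coe_iff.mp this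
      have h3 : (1 + ε / Real.log ‖z‖) * Real.log ‖z‖ = Real.log ‖z‖ + ε := by
        field_simp
      rw [h3] at h2
      linarith

theorem UU_le {u : ℂ → EReal} (hu : IsPsh u (ball (0 : ℂ) (Real.exp 1)))
    (hneg : ∀ w ∈ ball (0 : ℂ) (Real.exp 1), u w < 0)
    (hK : ∀ w ∈ closedBall (0 : ℂ) 1, u w ≤ (QQ w : EReal)) {z : ℂ}
    (hz : z ∈ ball (0 : ℂ) (Real.exp 1)) : u z ≤ (ww (1 / 2) z : EReal) := by
  rcases le_or_gt ‖z‖ 1 with h | h
  · rw [ww_eq_small h]
    exact hK z (by simpa using h)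
  · rw [ww_eq_large h.le]
    have hz' : ‖z‖ < Real.exp 1 := by simpa using hz
    have hlz : 0 < Real.log ‖z‖ := Real.log_pos h
    have hlz1 : Real.log ‖z‖ < 1 := by
      rw [Real.log_lt_iff_lt_exp (by linarith)]
      exact hz'
    have key : ∀ t : ℝ, Real.log ‖z‖ ≤ t → t < 1 →
        u z ≤ ((1 / (2 * t) * Real.log ‖z‖ + -(1 / 2) : ℝ) : EReal) := by
      intro t ht ht1
      have ht0 : 0 < t := by linarith
      apply compare hu (R := Real.exp t)
      · intro w hw
        rw [mem_ball_zero_iff]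
        exact hw.2.trans_lt (Real.exp_lt_exp.mpr ht1)
      · intro w hw
        refine (hK w (by simp [hw])).trans ?_
        unfold QQ
        rw [hw]
        apply EReal.coe_le_coe_iff.mpr
        norm_num
      · intro w hw
        have h1 : w ∈ ball (0 : ℂ) (Real.exp 1) := by
          rw [mem_ball_zero_iff, hw]
          exact Real.exp_lt_exp.mpr ht1
        refine (hneg w h1).le.trans ?_
        rw [Real.log_exp]
        have : 1 / (2 * t) * t + -(1 / 2) = 0 := by
          field_simp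
          norm_num
        rw [this]
        simp
      · refine ⟨h.le, ?_⟩
        rw [← Real.log_le_iff_le_exp (by linarith)]
        exact ht
    have hne : u z ≠ ⊤ := (hu.1 z hz).ne
    rcases eq_or_ne (u z) ⊥ with hb | hb
    · rw [hb]; exact bot_le
    · obtain ⟨x, hx⟩ : ∃ x : ℝ, u z = x := ⟨(u z).toReal, (EReal.coe_toReal hne hb).symm⟩
      rw [hx] at key ⊢
      apply EReal.coe_le_coe_iff.mpr
      have hlim : Tendsto (fun t : ℝ => 1 / (2 * t) * Real.log ‖z‖ + -(1 / 2)) (𝓝[<] 1)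
          (𝓝 (1 / (2 * 1) * Real.log ‖z‖ + -(1 / 2))) := by
        apply Tendsto.mono_left _ nhdsWithin_le_nhds
        apply ContinuousAt.tendsto
        apply ContinuousAt.add _ continuousAt_const
        apply ContinuousAt.mul _ continuousAt_const
        apply ContinuousAt.div continuousAt_const (by fun_prop)
        norm_num
      rw [mul_one] at hlim
      apply ge_of_tendsto hlim
      have h5 : ∀ᶠ t : ℝ in 𝓝[<] 1, Real.log ‖z‖ < t :=
        (eventually_gt_nhds hlz1).filter_mono nhdsWithin_le_nhds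
      filter_upwards [h5, self_mem_nhdsWithin] with t ht1 ht2
      exact EReal.coe_le_coe_iff.mp (key t ht1.le ht2)

theorem lelong_ww : Lelong (fun z => (ww 1 z : EReal)) := by
  refine ⟨isPsh_ww (by norm_num) _, 0, fun z => EReal.coe_le_coe_iff.mpr ?_⟩
  unfold ww
  have h1 : (min ‖z‖ 1) ^ 2 ≤ 1 := by
    apply pow_le_one₀ (le_min (norm_nonneg _) zero_le_one) (min_le_right _ _)
  have h2 : Real.log (max ‖z‖ 1) ≤ Real.posLog ‖z‖ := by
    rcases le_or_gt ‖z‖ 1 with h | h
    · rw [max_eq_right h, Real.log_one]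
      exact Real.posLog_nonneg
    · rw [max_eq_left h.le, Real.posLog]
      exact le_max_right _ _
  linarith

theorem VV_eq : VV (closedBall (0 : ℂ) 1) QQ = fun z => (ww 1 z : EReal) := by
  funext z
  apply le_antisymm
  · apply sSup_le
    rintro y ⟨u, hu, hK, rfl⟩
    exact VV_le hu hK z
  · apply le_sSup
    refine ⟨fun z => (ww 1 z : EReal), lelong_ww, fun w hw => ?_, rfl⟩
    change (ww 1 w : EReal) ≤ _
    rw [ww_eq_small (by simpa using hw)]
    exact le_rfl

theorem ww_neg {z : ℂ} (hz : z ∈ ball (0 : ℂ) (Real.exp 1)) : ww (1 / 2) z < 0 := by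
  have hz' : ‖z‖ < Real.exp 1 := by simpa using hz
  rcases le_or_gt ‖z‖ 1 with h | h
  · rw [ww_eq_small h]
    nlinarith [norm_nonneg z]
  · rw [ww_eq_large h.le]
    have hlz1 : Real.log ‖z‖ < 1 := by
      rw [Real.log_lt_iff_lt_exp (by linarith)]
      exact hz'
    linarith

theorem UU_eq {z : ℂ} (hz : z ∈ ball (0 : ℂ) (Real.exp 1)) :
    UU (closedBall (0 : ℂ) 1) QQ (ball 0 (Real.exp 1)) z = (ww (1 / 2) z : EReal) := by
  apply le_antisymm
  · apply sSup_le
    rintro y ⟨u, hu, hneg, hK, rfl⟩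
    exact UU_le hu hneg hK hz
  · apply le_sSup
    refine ⟨fun z => (ww (1 / 2) z : EReal), isPsh_ww le_rfl _, fun w hw => ?_, fun w hw => ?_, rfl⟩
    · change (ww (1 / 2) w : EReal) < _
      exact_mod_cast ww_neg hw
    · change (ww (1 / 2) w : EReal) ≤ _
      rw [ww_eq_small (by simpa using hw)]
      exact le_rfl

theorem reg_VV (z : ℂ) : reg (VV (closedBall (0 : ℂ) 1) QQ) z = (ww 1 z : EReal) := by
  unfold reg
  rw [VV_eq]
  exact (continuous_coe_real_ereal.comp (continuous_ww 1)).continuousAt.tendsto.limsup_eq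

theorem reg_UU {z : ℂ} (hz : z ∈ ball (0 : ℂ) (Real.exp 1)) :
    reg (UU (closedBall (0 : ℂ) 1) QQ (ball 0 (Real.exp 1))) z = (ww (1 / 2) z : EReal) := by
  unfold reg
  have h : UU (closedBall (0 : ℂ) 1) QQ (ball 0 (Real.exp 1)) =ᶠ[𝓝 z]
      fun z => (ww (1 / 2) z : EReal) := by
    filter_upwards [isOpen_ball.mem_nhds hz] with w hw
    exact UU_eq hw
  rw [limsup_congr h]
  exact (continuous_coe_real_ereal.comp (continuous_ww (1 / 2))).continuousAt.tendsto.limsup_eq

/-- The closed disc is not polar. -/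
theorem not_polar : ¬ IsPolar {z | z ∈ closedBall (0 : ℂ) 1 ∧ QQ z < 0} := by
  rintro ⟨u, hu, ⟨z, hz⟩, hE⟩
  apply hz
  have hE' : ∀ w : ℂ, ‖w‖ ≤ 1 → u w = ⊥ := by
    intro w hw
    apply hE
    refine ⟨by simpa using hw, ?_⟩
    unfold QQ
    nlinarith [norm_nonneg w]
  rcases le_or_gt ‖z‖ 1 with h | h
  · exact hE' z h
  have hlz : 0 < Real.log ‖z‖ := Real.log_pos h
  set R : ℝ := ‖z‖ + 1 with hR
  have hR1 : 1 < R := by rw [hR]; linarith
  have hlR : Real.log ‖z‖ < Real.log R := Real.log_lt_log (by linarith) (by rw [hR]; linarith)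
  have hlR0 : 0 < Real.log R := by linarith
  obtain ⟨C, hC0, hC⟩ : ∃ C : ℝ, 0 ≤ C ∧ ∀ w : ℂ, ‖w‖ = R → u w ≤ (C : EReal) := by
    obtain ⟨w₀, hw₀, hmax⟩ := UpperSemicontinuousOn.exists_isMaxOn
      (s := sphere (0 : ℂ) R) (f := u) ⟨(R : ℂ), by simp [abs_of_pos (by linarith : 0 < R)]⟩
      (isCompact_sphere _ _) (hu.2.1.mono (subset_univ _))
    have h1 : u w₀ < ⊤ := hu.1 w₀ (mem_univ _)
    refine ⟨max (u w₀).toReal 0, le_max_right _ _, fun w hw => ?_⟩
    have h2 : u w ≤ u w₀ := hmax (by simpa using hw)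
    refine h2.trans ?_
    rcases eq_or_ne (u w₀) ⊥ with hb | hb
    · rw [hb]; exact bot_le
    · rw [← EReal.coe_toReal h1.ne hb]
      exact EReal.coe_le_coe_iff.mpr (by simp)
  have key : ∀ N : ℕ, u z ≤ (((C + N) / Real.log R * Real.log ‖z‖ + -(N : ℝ) : ℝ) : EReal) := by
    intro N
    apply compare hu (R := R) (subset_univ _)
    · intro w hw
      rw [hE' w hw.le]
      exact bot_le
    · intro w hw
      refine (hC w hw).trans (EReal.coe_le_coe_iff.mpr ?_)
      field_simp
      linarith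
    · exact ⟨h.le, by rw [hR]; linarith⟩
  by_contra hb
  have hne : u z ≠ ⊤ := (hu.1 z (mem_univ _)).ne
  obtain ⟨x, hx⟩ : ∃ x : ℝ, u z = x := ⟨(u z).toReal, (EReal.coe_toReal hne hb).symm⟩
  have hlam : 0 < 1 - Real.log ‖z‖ / Real.log R := by
    rw [sub_pos, div_lt_one hlR0]
    exact hlR
  obtain ⟨N, hN⟩ := exists_nat_gt ((C * (Real.log ‖z‖ / Real.log R) - x) /
    (1 - Real.log ‖z‖ / Real.log R))
  have h3 := key N
  rw [hx] at h3
  have h4 := EReal.coe_le_coe_iff.mp h3
  rw [div_lt_iff₀ hlam] at hN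
  have h5 : (C + N) / Real.log R * Real.log ‖z‖ + -(N : ℝ) =
      C * (Real.log ‖z‖ / Real.log R) - N * (1 - Real.log ‖z‖ / Real.log R) := by
    ring
  rw [h5] at h4
  linarith

theorem hyperconvex_ball : IsHyperconvex (ball (0 : ℂ) (Real.exp 1)) := by
  have he : 0 < Real.exp 1 := Real.exp_pos 1
  refine ⟨isOpen_ball, (convex_ball _ _).isConnected ⟨0, by simpa using he⟩, isBounded_ball,
    fun z => ‖z‖ ^ 2 - Real.exp 1 ^ 2, by fun_prop, ?_, ?_, ?_⟩
  · apply isPsh_of_submean (by fun_prop)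
    intro z _
    refine ⟨1, one_pos, fun r hr _ => ?_⟩
    have h1 : Real.circleAverage (fun w : ℂ => ‖w‖ ^ 2 - Real.exp 1 ^ 2) z r =
        ‖z‖ ^ 2 + r ^ 2 - Real.exp 1 ^ 2 := by
      have := Real.circleAverage_sub (f₁ := fun w : ℂ => ‖w‖ ^ 2)
        (f₂ := fun _ : ℂ => Real.exp 1 ^ 2) (c := z) (R := r)
        (by apply ContinuousOn.circleIntegrable hr.le; fun_prop) (circleIntegrable_const _ _ _)
      rw [circleAverage_normSq z hr.le, Real.circleAverage_const] at this
      exact this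
    rw [h1]
    nlinarith
  · intro z hz
    rw [mem_ball_zero_iff] at hz
    nlinarith [norm_nonneg z]
  · intro c hc
    have : {z : ℂ | z ∈ ball (0 : ℂ) (Real.exp 1) ∧ ‖z‖ ^ 2 - Real.exp 1 ^ 2 ≤ c} =
        {z : ℂ | ‖z‖ ^ 2 ≤ Real.exp 1 ^ 2 + c} := by
      ext z
      simp only [mem_ofPred_eq, mem_ball_zero_iff]
      constructor
      · rintro ⟨_, h⟩
        linarith
      · intro h
        refine ⟨?_, by linarith⟩
        nlinarith [norm_nonneg z]
    rw [this]
    apply Metric.isCompact_of_isClosed_isBounded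
    · exact isClosed_le (by fun_prop) continuous_const
    · apply (isBounded_closedBall (x := (0 : ℂ)) (r := Real.exp 1)).subset
      intro z hz
      rw [mem_closedBall_zero_iff]
      have : ‖z‖ ^ 2 ≤ Real.exp 1 ^ 2 + c := hz
      nlinarith [norm_nonneg z]

end Pool.Agent.V1171.WE
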